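import Pool.Agent.Run7.h402.PG.Iface

set_option autoImplicit false

open Finset

namespace Run7.h713.PG

open Run7.h402.PG

theorem t_EQ : S_EQ := by
  intro p T v
  set F := (univ.filter (fun x : Fin T × Fin T => v x.1 = v x.2)) with hF
  have h1 : F.card ^ p = Nat.card (Fin p → F) := by
    rw [Nat.card_eq_fintype_card]
    simp
  rw [h1]
  unfold En
  apply Nat.card_le_card_of_injective
    (fun x : Fin p → F =>
      (⟨(fun j => (x j).1.1, fun j => (x j).1.2), by
        apply Finset.sum_congr rfl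
        intro j _
        exact (Finset.mem_filter.mp (x j).2).2⟩ :
        {q : (Fin p → Fin T) × (Fin p → Fin T) // ∑ j, v (q.1 j) = ∑ j, v (q.2 j)}))
  intro x y hxy
  have h2 := congrArg Subtype.val hxy
  have h3 := congrArg Prod.fst h2
  have h4 := congrArg Prod.snd h2
  funext j
  apply Subtype.ext
  apply Prod.ext
  · exact congrFun h3 j
  · exact congrFun h4 j

theorem t_SU (hREP : S_REP) : S_SU := by
  intro p T v
  have key : En (p + 1) v ≤ Nat.card (Σ ab : Fin T × Fin T,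
      {q : (Fin p → Fin T) × (Fin p → Fin T) //
        ∑ j, v (q.1 j) - ∑ j, v (q.2 j) = v ab.2 - v ab.1}) := by
    unfold En
    apply Nat.card_le_card_of_injective
      (fun q : {q : (Fin (p + 1) → Fin T) × (Fin (p + 1) → Fin T) //
          ∑ j, v (q.1 j) = ∑ j, v (q.2 j)} =>
        (⟨(q.1.1 0, q.1.2 0), ⟨(fun j => q.1.1 j.succ, fun j => q.1.2 j.succ), by
          have h := q.2
          rw [Fin.sum_univ_succ, Fin.sum_univ_succ] at h
          simp only
          linarith⟩⟩ : Σ ab : Fin T × Fin T,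
            {q : (Fin p → Fin T) × (Fin p → Fin T) //
              ∑ j, v (q.1 j) - ∑ j, v (q.2 j) = v ab.2 - v ab.1}))
    rintro ⟨⟨x1, x2⟩, hx⟩ ⟨⟨y1, y2⟩, hy⟩ hxy
    simp only [Sigma.mk.injEq, Prod.mk.injEq] at hxy
    obtain ⟨⟨ha, hb⟩, hc⟩ := hxy
    have hd : (fun j : Fin p => x1 j.succ) = (fun j : Fin p => y1 j.succ) ∧
        (fun j : Fin p => x2 j.succ) = (fun j : Fin p => y2 j.succ) := by
      have : ∀ (s t : ℤ) (P Q : (Fin p → Fin T) × (Fin p → Fin T))
          (hP : ∑ j, v (P.1 j) - ∑ j, v (P.2 j) = s)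
          (hQ : ∑ j, v (Q.1 j) - ∑ j, v (Q.2 j) = t), s = t →
          HEq (⟨P, hP⟩ : {q : (Fin p → Fin T) × (Fin p → Fin T) //
            ∑ j, v (q.1 j) - ∑ j, v (q.2 j) = s}) (⟨Q, hQ⟩ :
            {q : (Fin p → Fin T) × (Fin p → Fin T) //
            ∑ j, v (q.1 j) - ∑ j, v (q.2 j) = t}) → P = Q := by
        intro s t P Q hP hQ hst hh
        subst hst
        have := eq_of_heq hh
        exact congrArg Subtype.val this
      have h5 := this _ _ _ _ _ _ (show v (x2 0) - v (x1 0) = v (y2 0) - v (y1 0) by rw [ha, hb]) hc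
      exact ⟨congrArg Prod.fst h5, congrArg Prod.snd h5⟩
    apply Subtype.ext
    apply Prod.ext
    · funext j
      refine Fin.cases ?_ ?_ j
      · exact ha
      · intro i; exact congrFun hd.1 i
    · funext j
      refine Fin.cases ?_ ?_ j
      · exact hb
      · intro i; exact congrFun hd.2 i
  refine key.trans ?_
  rw [Nat.card_sigma]
  calc ∑ ab : Fin T × Fin T, Nat.card {q : (Fin p → Fin T) × (Fin p → Fin T) //
        ∑ j, v (q.1 j) - ∑ j, v (q.2 j) = v ab.2 - v ab.1}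
      ≤ ∑ ab : Fin T × Fin T, En p v := by
        apply Finset.sum_le_sum
        intro ab _
        exact hREP p T v _
    _ = T ^ 2 * En p v := by
        rw [Finset.sum_const, Finset.card_univ, Fintype.card_prod, Fintype.card_fin, smul_eq_mul]
        ring

theorem exp_two_mul_le (u : ℝ) (h0 : 0 ≤ u) (h1 : u ≤ 1) : Real.exp (2 * u) ≤ 1 + 7 * u := by
  have h := convexOn_exp.2 (Set.mem_univ (0 : ℝ)) (Set.mem_univ (2 : ℝ))
    (show (0 : ℝ) ≤ 1 - u by linarith) h0 (by ring)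
  simp only [smul_eq_mul, mul_zero, zero_add, Real.exp_zero, mul_one] at h
  have h2 : Real.exp 2 ≤ 8 := by
    have h3 : Real.exp 2 = Real.exp 1 * Real.exp 1 := by
      rw [← Real.exp_add]; norm_num
    rw [h3]
    have h4 := Real.exp_one_lt_d9
    have h5 := Real.exp_pos 1
    nlinarith
  have h6 : u * Real.exp 2 ≤ u * 8 := mul_le_mul_of_nonneg_left h2 h0
  rw [mul_comm u 2] at h
  linarith

theorem t_MOC : S_MOC := by
  intro p hp
  have hp0 : (0 : ℝ) < p := by exact_mod_cast hp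
  have hsum : Summable (fun n : ℕ => (n : ℝ) ^ (-(1 + 1 / (p : ℝ)))) := by
    apply Real.summable_nat_rpow.mpr
    have : 0 < 1 / (p : ℝ) := by positivity
    linarith
  set S : ℝ := ∑' n : ℕ, (n : ℝ) ^ (-(1 + 1 / (p : ℝ))) with hS
  have hS0 : 0 ≤ S := tsum_nonneg (fun n => by positivity)
  refine ⟨7 * S + 1, by linarith, ?_⟩
  intro w k y hkw
  have hstep : ∀ q ∈ (Icc 1 y).filter (fun q => q.Prime ∧ w < q),
      (1 + (((1 - 1 / (q : ℝ))⁻¹) ^ k - 1) * (q : ℝ) ^ (-(1 / (p : ℝ)))) ≤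
        Real.exp (7 * k * (q : ℝ) ^ (-(1 + 1 / (p : ℝ)))) := by
    intro q hq
    rw [mem_filter] at hq
    obtain ⟨_, hqp, hwq⟩ := hq
    have hq2 : (2 : ℝ) ≤ q := by exact_mod_cast hqp.two_le
    have hq0 : (0 : ℝ) < q := by linarith
    have hkq : (k : ℝ) ≤ q := by exact_mod_cast (hkw.trans hwq.le)
    have hinv : (1 - 1 / (q : ℝ))⁻¹ ≤ Real.exp (2 / q) := by
      have h1 : (1 - 1 / (q : ℝ))⁻¹ = 1 / (q - 1) + 1 := by
        have : (q : ℝ) - 1 ≠ 0 := by linarith
        field_simp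
        ring
      rw [h1]
      refine (Real.add_one_le_exp _).trans ?_
      apply Real.exp_le_exp.mpr
      rw [div_le_div_iff₀ (by linarith) hq0]
      linarith
    have hpos : 0 < 1 - 1 / (q : ℝ) := by
      have : 1 / (q : ℝ) ≤ 1 / 2 := by
        apply one_div_le_one_div_of_le (by norm_num) hq2
      linarith
    have hX : ((1 - 1 / (q : ℝ))⁻¹) ^ k ≤ 1 + 7 * (k / q) := by
      calc ((1 - 1 / (q : ℝ))⁻¹) ^ k ≤ (Real.exp (2 / q)) ^ k :=
            pow_le_pow_left₀ (inv_nonneg.mpr hpos.le) hinv k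
        _ = Real.exp (2 * (k / q)) := by
            rw [← Real.exp_nat_mul]
            congr 1
            ring
        _ ≤ 1 + 7 * (k / q) := by
            apply exp_two_mul_le
            · positivity
            · rw [div_le_one hq0]; exact hkq
    have hr : (0 : ℝ) ≤ (q : ℝ) ^ (-(1 / (p : ℝ))) := by positivity
    have hprod : (q : ℝ) ^ (-(1 + 1 / (p : ℝ))) = (q : ℝ)⁻¹ * (q : ℝ) ^ (-(1 / (p : ℝ))) := by
      rw [← Real.rpow_neg_one, ← Real.rpow_add hq0]
      congr 1
      ring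
    calc 1 + (((1 - 1 / (q : ℝ))⁻¹) ^ k - 1) * (q : ℝ) ^ (-(1 / (p : ℝ)))
        ≤ 1 + (7 * (k / q)) * (q : ℝ) ^ (-(1 / (p : ℝ))) := by
          have := mul_le_mul_of_nonneg_right
            (show ((1 - 1 / (q : ℝ))⁻¹) ^ k - 1 ≤ 7 * (k / q) by linarith) hr
          linarith
      _ = 7 * k * (q : ℝ) ^ (-(1 + 1 / (p : ℝ))) + 1 := by
          rw [hprod]
          ring
      _ ≤ _ := Real.add_one_le_exp _
  calc ∏ q ∈ (Icc 1 y).filter (fun q => q.Prime ∧ w < q),
        (1 + (((1 - 1 / (q : ℝ))⁻¹) ^ k - 1) * (q : ℝ) ^ (-(1 / (p : ℝ))))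
      ≤ ∏ q ∈ (Icc 1 y).filter (fun q => q.Prime ∧ w < q),
          Real.exp (7 * k * (q : ℝ) ^ (-(1 + 1 / (p : ℝ)))) := by
        apply Finset.prod_le_prod _ hstep
        intro q hq
        rw [mem_filter] at hq
        obtain ⟨_, hqp, hwq⟩ := hq
        have hq2 : (2 : ℝ) ≤ q := by exact_mod_cast hqp.two_le
        have h1q : 1 / (q : ℝ) ≤ 1 / 2 := one_div_le_one_div_of_le (by norm_num) hq2
        have h0q : 0 < 1 / (q : ℝ) := by positivity
        have h1 : 1 ≤ ((1 - 1 / (q : ℝ))⁻¹) ^ k := by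
          apply one_le_pow₀
          apply (one_le_inv₀ (by linarith)).mpr
          linarith
        have hr : (0 : ℝ) ≤ (q : ℝ) ^ (-(1 / (p : ℝ))) := by positivity
        have := mul_nonneg (sub_nonneg.mpr h1) hr
        linarith
    _ = Real.exp (7 * k * ∑ q ∈ (Icc 1 y).filter (fun q => q.Prime ∧ w < q),
          (q : ℝ) ^ (-(1 + 1 / (p : ℝ)))) := by
        rw [← Real.exp_sum, Finset.mul_sum]
    _ ≤ Real.exp ((7 * S + 1) * k) := by
        apply Real.exp_le_exp.mpr
        have h1 : ∑ q ∈ (Icc 1 y).filter (fun q => q.Prime ∧ w < q),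
            (q : ℝ) ^ (-(1 + 1 / (p : ℝ))) ≤ S :=
          hsum.sum_le_tsum _ (fun n _ => by positivity)
        have hk0 : (0 : ℝ) ≤ k := by positivity
        have h2 := mul_le_mul_of_nonneg_left h1 (show (0 : ℝ) ≤ 7 * k by positivity)
        nlinarith

end Run7.h713.PG
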